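import Pool.Agent.H0.Hit.Proof

open MeasureTheory Pool.Agent.H0.Hit

namespace Pool.Agent.Results.MP_990fd9_pr.SpeedupAtMostK

/-- For every finite strongly connected directed graph and every `k ≥ 1`,
`h_max ≤ k * h_max^k`. -/
theorem result (V : Type*) [Fintype V] [DecidableEq V] [MeasurableSpace V]
    [MeasurableSingletonClass V] (G : V → V → Prop) (_hG : StronglyConnected G)
    (k : ℕ) (hk : 1 ≤ k) : hmax G ≤ k * hkmax G k :=
  hmax_le G k hk

end Pool.Agent.Results.MP_990fd9_pr.SpeedupAtMostK
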